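import Mathlib
import Pool.Agent.T2H73.Plus1

set_option autoImplicit false

/-!
# MP_476b1b_an, Q1: overlapping symmetric additive spaces have no exponential orthonormal basis

For every `t ∈ (-1, 0)` (in particular for every `t ∈ [-1/2, 0)`) the space `L²(μ_t)` has no
orthonormal basis of normalised exponentials; in fact no system of exponentials (repetitions
allowed) is a tight frame of `L²(μ_t)`.
-/

open MeasureTheory Set Filter Topology
open scoped ComplexConjugate ENNReal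

namespace Pool.Agent.Results.MP_476b1b_an.NoTightFrame

/-- The measure `μ_t = m_{[t,t+1]} ⊗ δ₀ + δ₀ ⊗ m_{[t,t+1]}` on `ℝ²`. -/
noncomputable def muT (t : ℝ) : Measure (ℝ × ℝ) :=
  (volume.restrict (Icc t (t + 1))).prod (Measure.dirac 0) +
    (Measure.dirac 0).prod (volume.restrict (Icc t (t + 1)))

/-- The exponential `e_λ(x,y) = exp(2πi(λ₁ x + λ₂ y))`. -/
noncomputable def expo (l x : ℝ × ℝ) : ℂ :=
  Complex.exp (2 * Real.pi * Complex.I * (l.1 * x.1 + l.2 * x.2))

/-- `E(Λ)`, normalised, is an orthonormal basis of `L²(μ_t)`. -/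
def IsExponentialONB (t : ℝ) (Λ : Set (ℝ × ℝ)) : Prop :=
  ∃ b : HilbertBasis Λ ℂ (Lp ℂ 2 (muT t)),
    ∀ l : Λ, (b l : ℝ × ℝ → ℂ) =ᵐ[muT t] fun x => (Real.sqrt 2 : ℂ)⁻¹ * expo l x

/-- The family of exponentials `(e_{l i})_i` (repetitions allowed) is a tight frame of
`L²(μ_t)` with bound `A`. -/
def IsTightFrame (t : ℝ) {ι : Type} (l : ι → ℝ × ℝ) (A : ℝ) : Prop :=
  ∀ f : Lp ℂ 2 (muT t),
    HasSum (fun i => ‖∫ x, f x * conj (expo (l i) x) ∂(muT t)‖ ^ 2) (A * ‖f‖ ^ 2)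

instance (t : ℝ) : IsFiniteMeasure (muT t) := by
  unfold muT
  infer_instance

open Pool.Agent.T2H73.Plus

/-- tent on the first segment -/
noncomputable def H1 (δ : ℝ) : ℝ × ℝ → ℂ := fun x => if x.2 = 0 then (tent δ x.1 : ℂ) else 0

/-- tent on the second segment -/
noncomputable def H2 (δ : ℝ) : ℝ × ℝ → ℂ := fun x => if x.1 = 0 then (tent δ x.2 : ℂ) else 0

lemma measurable_H1 (δ : ℝ) : Measurable (H1 δ) := by
  refine Measurable.ite ?_ ?_ measurable_const
  · exact measurable_snd (measurableSet_singleton (0 : ℝ))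
  · exact Complex.measurable_ofReal.comp ((continuous_tent δ).measurable.comp measurable_fst)

lemma measurable_H2 (δ : ℝ) : Measurable (H2 δ) := by
  refine Measurable.ite ?_ ?_ measurable_const
  · exact measurable_fst (measurableSet_singleton (0 : ℝ))
  · exact Complex.measurable_ofReal.comp ((continuous_tent δ).measurable.comp measurable_snd)

lemma tent_le {δ : ℝ} (hδ : 0 < δ) (x : ℝ) : ‖(tent δ x : ℂ)‖ ≤ δ := by
  rw [Complex.norm_real, Real.norm_eq_abs, tent, abs_of_nonneg (le_max_left _ _)]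
  exact max_le hδ.le (by linarith [abs_nonneg x])

lemma H1_le {δ : ℝ} (hδ : 0 < δ) (x : ℝ × ℝ) : ‖H1 δ x‖ ≤ δ := by
  unfold H1
  split_ifs
  · exact tent_le hδ _
  · simpa using hδ.le

lemma H2_le {δ : ℝ} (hδ : 0 < δ) (x : ℝ × ℝ) : ‖H2 δ x‖ ≤ δ := by
  unfold H2
  split_ifs
  · exact tent_le hδ _
  · simpa using hδ.le

lemma integral_muT (t : ℝ) {F : ℝ × ℝ → ℂ} (hF : Measurable F) {C : ℝ} (hC : ∀ x, ‖F x‖ ≤ C) :
    ∫ x, F x ∂(muT t) = (∫ x in Icc t (t + 1), F (x, 0)) + ∫ y in Icc t (t + 1), F (0, y) := by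
  unfold muT
  rw [integral_add_measure]
  · rw [Measure.prod_dirac, Measure.dirac_prod, integral_map, integral_map]
    · exact measurable_prodMk_left.aemeasurable
    · exact hF.aestronglyMeasurable
    · exact measurable_prodMk_right.aemeasurable
    · exact hF.aestronglyMeasurable
  · exact Integrable.of_bound hF.aestronglyMeasurable C (Eventually.of_forall hC)
  · exact Integrable.of_bound hF.aestronglyMeasurable C (Eventually.of_forall hC)

lemma expo_norm (l x : ℝ × ℝ) : ‖expo l x‖ = 1 := by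
  unfold expo
  have : 2 * (Real.pi : ℂ) * Complex.I * (l.1 * x.1 + l.2 * x.2)
      = ((2 * Real.pi * (l.1 * x.1 + l.2 * x.2) : ℝ) : ℂ) * Complex.I := by
    push_cast; ring
  rw [this, Complex.norm_exp_ofReal_mul_I]

lemma continuous_expo (l : ℝ × ℝ) : Continuous (expo l) := by
  unfold expo
  fun_prop

lemma H1_coeff {t δ : ℝ} (hδ : 0 < δ) (h1 : t ≤ -δ) (h2 : δ ≤ t + 1) (l : ℝ × ℝ) :
    ∫ x, H1 δ x * conj (expo l x) ∂(muT t) = (K (2 * Real.pi * l.1) δ : ℂ) := by
  have hm : Measurable fun x => H1 δ x * conj (expo l x) :=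
    (measurable_H1 δ).mul (Complex.continuous_conj.measurable.comp (continuous_expo l).measurable)
  rw [integral_muT t hm (C := δ) (fun x => by
    rw [norm_mul, Complex.norm_conj, expo_norm, mul_one]; exact H1_le hδ x)]
  have e1 : ∫ x in Icc t (t + 1), H1 δ (x, 0) * conj (expo l (x, 0))
      = (K (2 * Real.pi * l.1) δ : ℂ) := by
    rw [← tent_FT hδ h1 h2]
    refine integral_congr_ae (Eventually.of_forall fun x => ?_)
    simp only [H1, if_true, expo]
    congr 3
    push_cast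
    ring
  have e2 : ∫ y in Icc t (t + 1), H1 δ (0, y) * conj (expo l (0, y)) = 0 := by
    rw [← integral_zero ℝ ℂ (μ := volume.restrict (Icc t (t + 1)))]
    refine integral_congr_ae (ae_restrict_of_ae ?_)
    have : ∀ᵐ y : ℝ, y ≠ 0 := by
      rw [ae_iff]
      simp
    filter_upwards [this] with y hy
    simp [H1, hy]
  rw [e1, e2, add_zero]

lemma H2_coeff {t δ : ℝ} (hδ : 0 < δ) (h1 : t ≤ -δ) (h2 : δ ≤ t + 1) (l : ℝ × ℝ) :
    ∫ x, H2 δ x * conj (expo l x) ∂(muT t) = (K (2 * Real.pi * l.2) δ : ℂ) := by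
  have hm : Measurable fun x => H2 δ x * conj (expo l x) :=
    (measurable_H2 δ).mul (Complex.continuous_conj.measurable.comp (continuous_expo l).measurable)
  rw [integral_muT t hm (C := δ) (fun x => by
    rw [norm_mul, Complex.norm_conj, expo_norm, mul_one]; exact H2_le hδ x)]
  have e1 : ∫ y in Icc t (t + 1), H2 δ (0, y) * conj (expo l (0, y))
      = (K (2 * Real.pi * l.2) δ : ℂ) := by
    rw [← tent_FT hδ h1 h2]
    refine integral_congr_ae (Eventually.of_forall fun x => ?_)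
    simp only [H2, if_true, expo]
    congr 3
    push_cast
    ring
  have e2 : ∫ x in Icc t (t + 1), H2 δ (x, 0) * conj (expo l (x, 0)) = 0 := by
    rw [← integral_zero ℝ ℂ (μ := volume.restrict (Icc t (t + 1)))]
    refine integral_congr_ae (ae_restrict_of_ae ?_)
    have : ∀ᵐ y : ℝ, y ≠ 0 := by
      rw [ae_iff]
      simp
    filter_upwards [this] with y hy
    simp [H2, hy]
  rw [e1, e2, zero_add]

lemma memLp_H1 {δ : ℝ} (hδ : 0 < δ) (t : ℝ) : MemLp (H1 δ) 2 (muT t) :=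
  MemLp.of_bound (measurable_H1 δ).aestronglyMeasurable δ (Eventually.of_forall (H1_le hδ))

lemma memLp_H2 {δ : ℝ} (hδ : 0 < δ) (t : ℝ) : MemLp (H2 δ) 2 (muT t) :=
  MemLp.of_bound (measurable_H2 δ).aestronglyMeasurable δ (Eventually.of_forall (H2_le hδ))

/-- `H1` and `H2` are orthogonal -/
lemma H_orth {δ : ℝ} (hδ : 0 < δ) (t : ℝ) :
    inner ℂ ((memLp_H1 hδ t).toLp (H1 δ)) ((memLp_H2 hδ t).toLp (H2 δ)) = 0 := by
  rw [L2.inner_def]
  have h1 : ∫ a, inner ℂ (((memLp_H1 hδ t).toLp (H1 δ) : ℝ × ℝ → ℂ) a)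
      (((memLp_H2 hδ t).toLp (H2 δ) : ℝ × ℝ → ℂ) a) ∂(muT t)
      = ∫ a, H2 δ a * conj (H1 δ a) ∂(muT t) := by
    refine integral_congr_ae ?_
    filter_upwards [(memLp_H1 hδ t).coeFn_toLp, (memLp_H2 hδ t).coeFn_toLp] with x hx hy
    rw [hx, hy]
    simp
  have hm : Measurable fun x => H2 δ x * conj (H1 δ x) :=
    (measurable_H2 δ).mul (Complex.continuous_conj.measurable.comp (measurable_H1 δ))
  rw [h1, integral_muT t hm (C := δ * δ) (fun x => by
      rw [norm_mul, Complex.norm_conj]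
      exact mul_le_mul (H2_le hδ x) (H1_le hδ x) (norm_nonneg _) hδ.le)]
  have hne : ∀ᵐ y : ℝ, y ≠ 0 := by
    rw [ae_iff]
    simp
  have e1 : ∫ x in Icc t (t + 1), H2 δ (x, 0) * conj (H1 δ (x, 0)) = 0 := by
    rw [← integral_zero ℝ ℂ (μ := volume.restrict (Icc t (t + 1)))]
    refine integral_congr_ae (ae_restrict_of_ae ?_)
    filter_upwards [hne] with y hy
    simp [H2, hy]
  have e2 : ∫ y in Icc t (t + 1), H2 δ (0, y) * conj (H1 δ (0, y)) = 0 := by
    rw [← integral_zero ℝ ℂ (μ := volume.restrict (Icc t (t + 1)))]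
    refine integral_congr_ae (ae_restrict_of_ae ?_)
    filter_upwards [hne] with y hy
    simp [H1, hy]
  rw [e1, e2, add_zero]

lemma exists_delta {t : ℝ} (ht : -1 < t) (ht0 : t < 0) (l : ℝ × ℝ) :
    ∃ δ : ℝ, 0 < δ ∧ t ≤ -δ ∧ δ ≤ t + 1 ∧ 0 < K (2 * Real.pi * l.1) δ ∧
      0 < K (2 * Real.pi * l.2) δ := by
  set a := |2 * Real.pi * l.1| + |2 * Real.pi * l.2| + 1 with ha
  have ha0 : 0 < a := by positivity
  set δ := min (min (-t) (t + 1)) a⁻¹ with hδ
  have hδ0 : 0 < δ := by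
    refine lt_min (lt_min (by linarith) (by linarith)) (inv_pos.2 ha0)
  have h1 : δ ≤ -t := (min_le_left _ _).trans (min_le_left _ _)
  have h2 : δ ≤ t + 1 := (min_le_left _ _).trans (min_le_right _ _)
  have h3 : δ ≤ a⁻¹ := min_le_right _ _
  have h4 : ∀ b : ℝ, |b| ≤ a → |b * δ| ≤ 1 := by
    intro b hb
    rw [abs_mul, abs_of_pos hδ0]
    calc |b| * δ ≤ a * a⁻¹ := mul_le_mul hb h3 hδ0.le ha0.le
      _ = 1 := mul_inv_cancel₀ ha0.ne'
  refine ⟨δ, hδ0, by linarith, h2, K_pos hδ0 (h4 _ ?_), K_pos hδ0 (h4 _ ?_)⟩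
  · rw [ha]; linarith [abs_nonneg (2 * Real.pi * l.2)]
  · rw [ha]; linarith [abs_nonneg (2 * Real.pi * l.1)]

theorem no_tight {t : ℝ} (ht : -1 < t) (ht0 : t < 0) {ι : Type} (l : ι → ℝ × ℝ) {A : ℝ}
    (hA : 0 < A) : ¬ IsTightFrame t l A := by
  intro h
  -- the index set is nonempty
  by_cases hι : Nonempty ι
  · obtain ⟨i0⟩ := hι
    obtain ⟨δ, hδ, h1, h2, hK1, hK2⟩ := exists_delta ht ht0 (l i0)
    set f := (memLp_H1 hδ t).toLp (H1 δ) with hf
    set g := (memLp_H2 hδ t).toLp (H2 δ) with hg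
    have hcf : ∀ i, ∫ x, (f : ℝ × ℝ → ℂ) x * conj (expo (l i) x) ∂(muT t)
        = (K (2 * Real.pi * (l i).1) δ : ℂ) := by
      intro i
      rw [← H1_coeff hδ h1 h2]
      refine integral_congr_ae ?_
      filter_upwards [(memLp_H1 hδ t).coeFn_toLp] with x hx
      rw [hf, hx]
    have hcg : ∀ i, ∫ x, (g : ℝ × ℝ → ℂ) x * conj (expo (l i) x) ∂(muT t)
        = (K (2 * Real.pi * (l i).2) δ : ℂ) := by
      intro i
      rw [← H2_coeff hδ h1 h2]
      refine integral_congr_ae ?_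
      filter_upwards [(memLp_H2 hδ t).coeFn_toLp] with x hx
      rw [hg, hx]
    have hint : ∀ (k : Lp ℂ 2 (muT t)) (i : ι),
        Integrable (fun x => (k : ℝ × ℝ → ℂ) x * conj (expo (l i) x)) (muT t) := by
      intro k i
      have hk : Integrable (k : ℝ × ℝ → ℂ) (muT t) := (Lp.memLp k).integrable (by norm_num)
      refine hk.mul_bdd (c := 1) ?_ (Eventually.of_forall fun x => ?_)
      · exact (Complex.continuous_conj.comp (continuous_expo (l i))).aestronglyMeasurable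
      · rw [Complex.norm_conj, expo_norm]
    have hadd : ∀ i, ∫ x, ((f + g : Lp ℂ 2 (muT t)) : ℝ × ℝ → ℂ) x * conj (expo (l i) x) ∂(muT t)
        = ((K (2 * Real.pi * (l i).1) δ + K (2 * Real.pi * (l i).2) δ : ℝ) : ℂ) := by
      intro i
      rw [Complex.ofReal_add, ← hcf i, ← hcg i, ← integral_add (hint f i) (hint g i)]
      refine integral_congr_ae ?_
      filter_upwards [Lp.coeFn_add f g] with x hx
      rw [hx, Pi.add_apply, add_mul]
    have hsub : ∀ i, ∫ x, ((f - g : Lp ℂ 2 (muT t)) : ℝ × ℝ → ℂ) x * conj (expo (l i) x) ∂(muT t)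
        = ((K (2 * Real.pi * (l i).1) δ - K (2 * Real.pi * (l i).2) δ : ℝ) : ℂ) := by
      intro i
      rw [Complex.ofReal_sub, ← hcf i, ← hcg i, ← integral_sub (hint f i) (hint g i)]
      refine integral_congr_ae ?_
      filter_upwards [Lp.coeFn_sub f g] with x hx
      rw [hx, Pi.sub_apply, sub_mul]
    have hp := h (f + g)
    have hm := h (f - g)
    have hn : ‖f + g‖ ^ 2 = ‖f - g‖ ^ 2 := by
      have ho : inner ℂ f g = 0 := H_orth hδ t
      rw [@norm_add_sq ℂ, @norm_sub_sq ℂ, ho]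
      simp
    rw [hn] at hp
    have hd := hp.sub hm
    rw [sub_self] at hd
    have hterm : (fun i => ‖∫ x, ((f + g : Lp ℂ 2 (muT t)) : ℝ × ℝ → ℂ) x *
        conj (expo (l i) x) ∂(muT t)‖ ^ 2 -
        ‖∫ x, ((f - g : Lp ℂ 2 (muT t)) : ℝ × ℝ → ℂ) x * conj (expo (l i) x) ∂(muT t)‖ ^ 2)
        = fun i => 4 * (K (2 * Real.pi * (l i).1) δ * K (2 * Real.pi * (l i).2) δ) := by
      funext i
      rw [hadd, hsub, Complex.norm_real, Complex.norm_real, Real.norm_eq_abs, Real.norm_eq_abs,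
        sq_abs, sq_abs]
      ring
    rw [hterm] at hd
    have hz := (hasSum_zero_iff_of_nonneg (fun i => by
      have a1 := K_nonneg (2 * Real.pi * (l i).1) hδ.le
      have a2 := K_nonneg (2 * Real.pi * (l i).2) hδ.le
      show (0 : ℝ) ≤ 4 * (K (2 * Real.pi * (l i).1) δ * K (2 * Real.pi * (l i).2) δ)
      positivity)).1 hd
    have hz0 := congrFun hz i0
    simp only [Pi.zero_apply] at hz0
    have : 0 < 4 * (K (2 * Real.pi * (l i0).1) δ * K (2 * Real.pi * (l i0).2) δ) := by positivity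
    linarith
  · rw [not_nonempty_iff] at hι
    obtain ⟨δ, hδ, h1, h2, hK1, -⟩ := exists_delta ht ht0 0
    set f := (memLp_H1 hδ t).toLp (H1 δ) with hf
    have h3 := (h f).unique hasSum_empty
    have h4 : ‖f‖ ^ 2 = 0 := by
      rcases mul_eq_zero.1 h3 with h5 | h5
      · exact absurd h5 hA.ne'
      · exact h5
    have h5 : f = 0 := by simpa using h4
    have h6 : ∫ x, (f : ℝ × ℝ → ℂ) x * conj (expo 0 x) ∂(muT t)
        = (K (2 * Real.pi * (0 : ℝ × ℝ).1) δ : ℂ) := by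
      rw [← H1_coeff hδ h1 h2]
      refine integral_congr_ae ?_
      filter_upwards [(memLp_H1 hδ t).coeFn_toLp] with x hx
      rw [hf, hx]
    have h7 : ∫ x, (f : ℝ × ℝ → ℂ) x * conj (expo 0 x) ∂(muT t) = 0 := by
      rw [← integral_zero (ℝ × ℝ) ℂ (μ := muT t)]
      refine integral_congr_ae ?_
      have := Lp.coeFn_zero ℂ 2 (muT t)
      filter_upwards [this] with x hx
      rw [h5, hx]
      simp
    rw [h7] at h6
    have : K (2 * Real.pi * (0 : ℝ × ℝ).1) δ = 0 := by exact_mod_cast h6.symm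
    linarith

lemma onb_tight {t : ℝ} {Λ : Set (ℝ × ℝ)} (h : IsExponentialONB t Λ) :
    IsTightFrame t (fun l : Λ => (l : ℝ × ℝ)) 2 := by
  obtain ⟨b, hb⟩ := h
  intro f
  have h1 : ∀ l : Λ, ‖∫ x, (f : ℝ × ℝ → ℂ) x * conj (expo l x) ∂(muT t)‖ ^ 2
      = 2 * ‖b.repr f l‖ ^ 2 := by
    intro l
    have h2 : b.repr f l = (Real.sqrt 2 : ℂ)⁻¹ *
        ∫ x, (f : ℝ × ℝ → ℂ) x * conj (expo l x) ∂(muT t) := by
      rw [b.repr_apply_apply, L2.inner_def, ← integral_const_mul]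
      refine integral_congr_ae ?_
      filter_upwards [hb l] with x hx
      rw [hx]
      simp only [RCLike.inner_apply, map_mul, map_inv₀, Complex.conj_ofReal]
      ring
    rw [h2, norm_mul, mul_pow, norm_inv, Complex.norm_real, Real.norm_eq_abs,
      abs_of_nonneg (Real.sqrt_nonneg 2), inv_pow, Real.sq_sqrt (by norm_num)]
    ring
  have h3 : (fun l : Λ => ‖∫ x, (f : ℝ × ℝ → ℂ) x * conj (expo l x) ∂(muT t)‖ ^ 2)
      = fun l => 2 * ‖b.repr f l‖ ^ 2 := funext h1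
  rw [h3]
  refine HasSum.mul_left 2 ?_
  have h4 := lp.hasSum_norm (p := 2) (by norm_num) (b.repr f)
  simp only [ENNReal.toReal_ofNat, Real.rpow_ofNat, b.repr.norm_map] at h4
  exact h4

/-- **Q1 of MP_476b1b_an (yes: no exponential orthonormal basis).** For every `t ∈ (-1,0)`,
in particular for every `t ∈ [-1/2, 0)`, no `Λ ⊆ ℝ²` gives an (normalised) exponential
orthonormal basis of `L²(μ_t)`, and no family of exponentials is a tight frame of `L²(μ_t)`. -/
theorem result (t : ℝ) (ht : -1 < t) (ht0 : t < 0) :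
    (¬ ∃ Λ : Set (ℝ × ℝ), IsExponentialONB t Λ) ∧
      ∀ (ι : Type) (l : ι → ℝ × ℝ) (A : ℝ), 0 < A → ¬ IsTightFrame t l A :=
  ⟨fun ⟨_, h⟩ => no_tight ht ht0 _ (by norm_num) (onb_tight h),
    fun _ l _ hA => no_tight ht ht0 l hA⟩

end Pool.Agent.Results.MP_476b1b_an.NoTightFrame
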